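import Mathlib

set_option autoImplicit false

namespace Pool.Agent.Results.MP_d888c7_an.NoSolution

open MeasureTheory Finset

/-- The class `Ω` of weights. -/
def InOmega (ω : ℝ → ℝ) : Prop :=
  ContinuousOn ω (Set.Icc 0 1) ∧ (∀ x ∈ Set.Icc (0:ℝ) 1, 0 < ω x) ∧ ω 0 = 1 ∧
    IntegrableOn ω (Set.Icc 0 1) ∧ IntegrableOn (fun x => |1 - ω x| / x) (Set.Ioc 0 1)

/-- The sequence `λ_n`. -/
noncomputable def lam (ω₁ ω₂ : ℝ → ℝ) (n : ℕ) : ℝ :=
  if n = 0 then 1 else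
    (∫ x in (0:ℝ)..1, ω₁ x * x ^ (n - 1)) / (∫ x in (0:ℝ)..1, ω₂ x * x ^ (n - 1))

/-- `I` is the Riemann-Stieltjes integral of `f` with respect to `β` over `[0,1]`. -/
def HasRS (f β : ℝ → ℝ) (I : ℝ) : Prop :=
  ∀ ε : ℝ, 0 < ε → ∃ δ : ℝ, 0 < δ ∧ ∀ (m : ℕ) (x t : ℕ → ℝ), x 0 = 0 → x m = 1 →
    (∀ i < m, x i ≤ t i ∧ t i ≤ x (i + 1) ∧ x (i + 1) - x i < δ) →
    |∑ i ∈ Finset.range m, f (t i) * (β (x (i + 1)) - β (x i)) - I| < ε

theorem HasRS.sub {f g β : ℝ → ℝ} {I J : ℝ} (hf : HasRS f β I) (hg : HasRS g β J) :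
    HasRS (fun x => f x - g x) β (I - J) := by
  intro ε hε
  obtain ⟨δ₁, h1, H1⟩ := hf (ε / 2) (by positivity)
  obtain ⟨δ₂, h2, H2⟩ := hg (ε / 2) (by positivity)
  refine ⟨min δ₁ δ₂, by positivity, fun m x t h0 hm h => ?_⟩
  have a := H1 m x t h0 hm fun i hi => ⟨(h i hi).1, (h i hi).2.1, lt_of_lt_of_le (h i hi).2.2 (min_le_left _ _)⟩
  have b := H2 m x t h0 hm fun i hi => ⟨(h i hi).1, (h i hi).2.1, lt_of_lt_of_le (h i hi).2.2 (min_le_right _ _)⟩
  simp only [sub_mul, Finset.sum_sub_distrib]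
  rw [abs_lt] at a b ⊢
  constructor <;> linarith [a.1, a.2, b.1, b.2]

theorem rs_bound {f β : ℝ → ℝ} {I C : ℝ} (hβ : BoundedVariationOn β (Set.Icc 0 1))
    (hf : HasRS f β I) (hC : ∀ x ∈ Set.Icc (0:ℝ) 1, |f x| ≤ C) :
    |I| ≤ C * (eVariationOn β (Set.Icc 0 1)).toReal := by
  have hC0 : 0 ≤ C := le_trans (abs_nonneg _) (hC 0 ⟨le_rfl, zero_le_one⟩)
  refine le_of_forall_pos_le_add fun ε hε => ?_
  obtain ⟨δ, hδ, H⟩ := hf ε hε
  obtain ⟨m, hm⟩ := exists_nat_one_div_lt hδ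
  have hmpos : (0:ℝ) < (m:ℝ) + 1 := by positivity
  set x : ℕ → ℝ := fun i => (i:ℝ) / ((m:ℝ) + 1) with hx
  have hxm : Monotone x := fun i j hij => by
    simp only [hx]; gcongr
  have hxI : ∀ i ≤ m + 1, x i ∈ Set.Icc (0:ℝ) 1 := by
    intro i hi
    refine ⟨by simp only [hx]; positivity, ?_⟩
    simp only [hx]
    rw [div_le_one hmpos]
    exact_mod_cast hi
  have h1 := H (m + 1) x x (by simp [hx]) (by simp only [hx]; push_cast; exact div_self hmpos.ne')
    (fun i hi => ⟨le_rfl, hxm (Nat.le_succ i), by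
      simp only [hx]; push_cast; rw [← sub_div]; simpa using hm⟩)
  have h2 := eVariationOn.sum_le_of_monotoneOn_Iic (f := β) (s := Set.Icc 0 1) (n := m + 1) (u := x)
    (hxm.monotoneOn _) hxI
  have h3 : ∑ i ∈ Finset.range (m + 1), |β (x (i + 1)) - β (x i)| ≤
      (eVariationOn β (Set.Icc 0 1)).toReal := by
    have := ENNReal.toReal_mono hβ h2
    rw [ENNReal.toReal_sum (fun _ _ => edist_ne_top _ _)] at this
    simpa [edist_dist, Real.dist_eq] using this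
  have h4 : |∑ i ∈ Finset.range (m + 1), f (x i) * (β (x (i + 1)) - β (x i))| ≤
      C * ∑ i ∈ Finset.range (m + 1), |β (x (i + 1)) - β (x i)| := by
    rw [Finset.mul_sum]
    refine le_trans (Finset.abs_sum_le_sum_abs _ _) (Finset.sum_le_sum fun i hi => ?_)
    rw [abs_mul]
    exact mul_le_mul_of_nonneg_right (hC _ (hxI i (Finset.mem_range.1 hi).le)) (abs_nonneg _)
  have h5 := mul_le_mul_of_nonneg_left h3 hC0
  have h6 := abs_sub_abs_le_abs_sub I (∑ i ∈ Finset.range (m + 1), f (x i) * (β (x (i + 1)) - β (x i)))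
  rw [abs_sub_comm] at h1
  linarith

/-- iterated differences -/
def A {R : Type} [Ring R] (g : ℕ → R) : ℕ → ℕ → R
  | 0, k => g k
  | N + 1, k => A g N k - A g N (k + 1)

theorem rs_A {β : ℝ → ℝ} {g : ℕ → ℝ} (h : ∀ n, HasRS (fun x => x ^ n) β (g n)) :
    ∀ N k, HasRS (fun x => x ^ k * (1 - x) ^ N) β (A g N k)
  | 0, k => by simpa [A] using h k
  | N + 1, k => by
    have := (rs_A h N k).sub (rs_A h N (k + 1))
    simp only [A]
    convert this using 2
    ring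

theorem A_cast (g : ℕ → ℝ) : ∀ N k, A (fun n => (g n : ℂ)) N k = ((A g N k : ℝ) : ℂ)
  | 0, k => rfl
  | N + 1, k => by simp only [A, A_cast g N]; push_cast; ring

theorem A_lin (g h : ℕ → ℂ) (c d : ℂ) :
    ∀ N k, A (fun n => c * g n + d * h n) N k = c * A g N k + d * A h N k
  | 0, k => rfl
  | N + 1, k => by simp only [A, A_lin g h c d N]; ring

theorem A_mul (g : ℕ → ℂ) :
    ∀ N k, A (fun n => (n:ℂ) * g n) (N + 1) k = k * A g (N + 1) k - (N + 1) * A g N (k + 1)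
  | 0, k => by simp only [A]; push_cast; ring
  | N + 1, k => by
    rw [A, A_mul g N, A_mul g N]
    simp only [A]; push_cast; ring

theorem A_affine (c d : ℂ) : ∀ N k, A (fun n => c + d * (n:ℂ)) (N + 2) k = 0
  | 0, k => by simp only [A]; push_cast; ring
  | N + 1, k => by rw [A, A_affine c d N, A_affine c d N, sub_zero]

theorem A_inv (z : ℂ) (hz : ∀ n : ℕ, (n:ℂ) - z ≠ 0) :
    ∀ N k, A (fun n => 1 / ((n:ℂ) - z)) N k =
      (N.factorial : ℂ) / ∏ j ∈ range (N + 1), (((k + j : ℕ) : ℂ) - z)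
  | 0, k => by simp [A]
  | N + 1, k => by
    rw [A, A_inv z hz N, A_inv z hz N]
    have h1 : ∏ j ∈ range (N + 1 + 1), (((k + j : ℕ) : ℂ) - z) =
        (∏ j ∈ range (N + 1), (((k + j : ℕ) : ℂ) - z)) * (((k + (N + 1) : ℕ) : ℂ) - z) :=
      prod_range_succ _ _
    have h2 : ∏ j ∈ range (N + 1 + 1), (((k + j : ℕ) : ℂ) - z) =
        (∏ j ∈ range (N + 1), (((k + 1 + j : ℕ) : ℂ) - z)) * (((k + 0 : ℕ) : ℂ) - z) := by
      rw [prod_range_succ']
      congr 1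
      refine prod_congr rfl fun j _ => ?_
      congr 2; omega
    have n1 : ∏ j ∈ range (N + 1), (((k + j : ℕ) : ℂ) - z) ≠ 0 := prod_ne_zero_iff.2 fun j _ => hz _
    have n2 : ∏ j ∈ range (N + 1), (((k + 1 + j : ℕ) : ℂ) - z) ≠ 0 := prod_ne_zero_iff.2 fun j _ => hz _
    have n3 : ∏ j ∈ range (N + 1 + 1), (((k + j : ℕ) : ℂ) - z) ≠ 0 := prod_ne_zero_iff.2 fun j _ => hz _
    have e1 : (N.factorial : ℂ) / ∏ j ∈ range (N + 1), (((k + j : ℕ) : ℂ) - z) =
        N.factorial * (((k + (N + 1) : ℕ) : ℂ) - z) / ∏ j ∈ range (N + 1 + 1), (((k + j : ℕ) : ℂ) - z) := by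
      rw [h1, mul_div_mul_right _ _ (hz _)]
    have e2 : (N.factorial : ℂ) / ∏ j ∈ range (N + 1), (((k + 1 + j : ℕ) : ℂ) - z) =
        N.factorial * (((k + 0 : ℕ) : ℂ) - z) / ∏ j ∈ range (N + 1 + 1), (((k + j : ℕ) : ℂ) - z) := by
      rw [h2, mul_div_mul_right _ _ (hz _)]
    rw [e1, e2, ← sub_div, Nat.factorial_succ]
    congr 1
    push_cast; ring

theorem A_inv_succ (z : ℂ) (hz : ∀ n : ℕ, (n:ℂ) - z ≠ 0) (N : ℕ) :
    A (fun n => 1 / ((n:ℂ) - z)) (N + 1) 0 * (((N + 1 : ℕ) : ℂ) - z) =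
      A (fun n => 1 / ((n:ℂ) - z)) N 0 * ((N:ℂ) + 1) := by
  rw [A_inv z hz, A_inv z hz, prod_range_succ _ (N + 1), Nat.factorial_succ]
  have n1 : ∏ j ∈ range (N + 1), (((0 + j : ℕ) : ℂ) - z) ≠ 0 := prod_ne_zero_iff.2 fun j _ => hz _
  have n2 := hz (N + 1)
  rw [zero_add (N + 1)]
  field_simp
  push_cast; ring

noncomputable def a : ℂ := ⟨1, Real.sqrt 26⟩
noncomputable def b : ℂ := ⟨1, -Real.sqrt 26⟩

theorem sq26 : Real.sqrt 26 * Real.sqrt 26 = 26 := Real.mul_self_sqrt (by norm_num)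

theorem ha (n : ℕ) : (n:ℂ) - a ≠ 0 := by
  intro h
  have := congrArg Complex.im h
  simp [a] at this

theorem h8 (n : ℕ) : (n:ℂ) - (-8) ≠ 0 := by
  rw [sub_neg_eq_add]
  exact_mod_cast (by omega : n + 8 ≠ 0)

theorem hab (n : ℕ) : ((n:ℂ) - a) * ((n:ℂ) - b) = (n:ℂ) ^ 2 - 2 * n + 27 := by
  apply Complex.ext
  · simp [a, b, pow_two]; nlinarith [sq26]
  · simp [a, b, pow_two]; ring

theorem bound8 : ∀ N, ‖A (fun n => 1 / ((n:ℂ) - (-8))) N 0‖ ≤ 1
  | 0 => by simp [A]; norm_num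
  | N + 1 => by
    have h := congrArg norm (A_inv_succ (-8) h8 N)
    have ih := bound8 N
    rw [norm_mul, norm_mul] at h
    have e1 : ‖(((N + 1 : ℕ) : ℂ) - (-8))‖ = (N:ℝ) + 9 := by
      have : (((N + 1 : ℕ) : ℂ) - (-8)) = (((N:ℝ) + 9 : ℝ) : ℂ) := by push_cast; ring
      rw [this, Complex.norm_real, Real.norm_of_nonneg (by positivity)]
    have e2 : ‖((N:ℂ) + 1)‖ = (N:ℝ) + 1 := by
      have : ((N:ℂ) + 1) = (((N:ℝ) + 1 : ℝ) : ℂ) := by push_cast; ring
      rw [this, Complex.norm_real, Real.norm_of_nonneg (by positivity)]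
    rw [e1, e2] at h
    have hN : (0:ℝ) ≤ N := by positivity
    by_contra hc
    push Not at hc
    nlinarith

theorem growth (m : ℕ) : Complex.normSq (A (fun n => 1 / ((n:ℂ) - a)) 26 0) * (27 + m) ≤
    27 * Complex.normSq (A (fun n => 1 / ((n:ℂ) - a)) (26 + m) 0) := by
  induction m with
  | zero => simp [mul_comm]
  | succ m ih =>
    have h := congrArg Complex.normSq (A_inv_succ a ha (26 + m))
    rw [map_mul, map_mul] at h
    have e1 : Complex.normSq (((26 + m + 1 : ℕ) : ℂ) - a) = ((m:ℝ) + 26) ^ 2 + 26 := by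
      simp [Complex.normSq_apply, a]; nlinarith [sq26]
    have e2 : Complex.normSq (((26 + m : ℕ) : ℂ) + 1) = ((m:ℝ) + 27) ^ 2 := by
      simp [Complex.normSq_apply]; ring
    rw [e1, e2] at h
    rw [← add_assoc]
    set u := Complex.normSq (A (fun n => 1 / ((n:ℂ) - a)) 26 0)
    set v := Complex.normSq (A (fun n => 1 / ((n:ℂ) - a)) (26 + m) 0)
    set w := Complex.normSq (A (fun n => 1 / ((n:ℂ) - a)) (26 + m + 1) 0)
    have hu : 0 ≤ u := Complex.normSq_nonneg _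
    have hm : (0:ℝ) ≤ m := by positivity
    push_cast
    have hpos : 0 < ((m:ℝ) + 26) ^ 2 + 26 := by positivity
    have h1 : ((m:ℝ) + 28) * (((m:ℝ) + 26) ^ 2 + 26) ≤ ((m:ℝ) + 27) ^ 3 := by nlinarith
    have h2 : u * (((m:ℝ) + 28) * (((m:ℝ) + 26) ^ 2 + 26)) ≤ u * ((m:ℝ) + 27) ^ 3 :=
      mul_le_mul_of_nonneg_left h1 hu
    have h3 : u * (27 + m) * ((m:ℝ) + 27) ^ 2 ≤ 27 * v * ((m:ℝ) + 27) ^ 2 :=
      mul_le_mul_of_nonneg_right ih (by positivity)
    refine le_of_mul_le_mul_right ?_ hpos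
    nlinarith

theorem start_pos : 0 < Complex.normSq (A (fun n => 1 / ((n:ℂ) - a)) 26 0) := by
  rw [Complex.normSq_pos, A_inv a ha]
  exact div_ne_zero (by exact_mod_cast Nat.factorial_ne_zero 26) (prod_ne_zero_iff.2 fun j _ => ha _)

noncomputable def om (e : ℝ) (x : ℝ) : ℝ := e + (1 - e) * (1 - x) ^ 3

theorem om_in (e : ℝ) (h0 : 0 < e) (h1 : e ≤ 1) : InOmega (om e) := by
  have hc : Continuous (om e) := by unfold om; fun_prop
  refine ⟨hc.continuousOn, fun x hx => ?_, by simp [om], hc.integrableOn_Icc, ?_⟩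
  · unfold om
    have : 0 ≤ (1 - e) * (1 - x) ^ 3 := mul_nonneg (by linarith) (pow_nonneg (by linarith [hx.2]) _)
    linarith
  · have hc2 : Continuous fun x : ℝ => |(1 - e) * (3 - 3 * x + x ^ 2)| := by fun_prop
    refine (hc2.integrableOn_Icc.mono_set Set.Ioc_subset_Icc_self).congr_fun (fun x hx => ?_)
      measurableSet_Ioc
    have hx0 : 0 < x := hx.1
    have : 1 - om e x = (1 - e) * (3 - 3 * x + x ^ 2) * x := by unfold om; ring
    simp only [this, abs_mul, abs_of_pos hx0]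
    field_simp

theorem om_anti (e : ℝ) (h1 : e ≤ 1) : AntitoneOn (om e) (Set.Icc 0 1) := by
  intro x hx y hy hxy
  unfold om
  have : (1 - y) ^ 3 ≤ (1 - x) ^ 3 := pow_le_pow_left₀ (by linarith [hy.2]) (by linarith) 3
  nlinarith

theorem om_int (e : ℝ) (m : ℕ) : ∫ x in (0:ℝ)..1, om e x * x ^ m =
    (e * ((m + 2) * (m + 3) * (m + 4)) + (1 - e) * 6) / ((m + 1) * (m + 2) * (m + 3) * (m + 4)) := by
  have : ∀ x : ℝ, om e x * x ^ m = x ^ m - (3 * (1 - e)) * x ^ (m + 1) + (3 * (1 - e)) * x ^ (m + 2)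
      - (1 - e) * x ^ (m + 3) := by intro x; unfold om; ring
  simp only [this]
  rw [intervalIntegral.integral_sub (by apply Continuous.intervalIntegrable; fun_prop)
      (by apply Continuous.intervalIntegrable; fun_prop),
    intervalIntegral.integral_add (by apply Continuous.intervalIntegrable; fun_prop)
      (by apply Continuous.intervalIntegrable; fun_prop),
    intervalIntegral.integral_sub (by apply Continuous.intervalIntegrable; fun_prop)
      (by apply Continuous.intervalIntegrable; fun_prop)]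
  simp only [intervalIntegral.integral_const_mul, integral_pow]
  push_cast
  simp only [one_pow, ne_eq, Nat.add_eq_zero_iff, one_ne_zero, and_false, not_false_eq_true,
    zero_pow, sub_zero]
  field_simp
  ring

theorem lam_eq (n : ℕ) : lam (om (1 / 72)) (om (1 / 36)) n =
    1 / 2 + 108 / (((n:ℝ) + 8) * ((n:ℝ) ^ 2 - 2 * n + 27)) := by
  unfold lam
  rcases n with _ | m
  · norm_num
  · rw [if_neg (Nat.succ_ne_zero m), Nat.add_sub_cancel, om_int, om_int]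
    have h1 : (0:ℝ) < ((m:ℝ) + 1) ^ 2 - 2 * (m + 1) + 27 := by nlinarith
    have h2 : (0:ℝ) < 1 / 36 * (((m:ℝ) + 2) * (m + 3) * (m + 4)) + (1 - 1 / 36) * 6 := by positivity
    push_cast
    rw [div_div_div_cancel_right₀ (by positivity), div_add_div _ _ (by norm_num) (by positivity),
      div_eq_div_iff h2.ne' (by positivity)]
    ring

theorem lam_key (n : ℕ) : b * ((lam (om (1 / 72)) (om (1 / 36)) n : ℝ) : ℂ) +
    (-1) * ((n:ℂ) * ((lam (om (1 / 72)) (om (1 / 36)) n : ℝ) : ℂ)) =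
    1 * (b / 2 + (-1 / 2) * (n:ℂ)) + (108 / 107) *
      ((b + 8) * (1 / ((n:ℂ) - (-8))) + (a - 10) * (1 / ((n:ℂ) - a))) := by
  rw [lam_eq]
  push_cast
  rw [← hab]
  have h1 := ha n
  have h2 := h8 n
  have h3 : (n:ℂ) - b ≠ 0 := by
    intro h
    have := congrArg Complex.im h
    simp [b] at this
  have h4 := hab n
  rw [sub_neg_eq_add] at h2 ⊢
  have hs : a + b = 2 := by apply Complex.ext <;> simp [a, b]; norm_num
  have hp : a * b = 27 := by
    apply Complex.ext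
    · simp [a, b]; linarith [sq26]
    · simp [a, b]
  field_simp
  linear_combination (-216 * (n:ℂ) ^ 2 + 216 * n * b) * hs + (216 * n - 216 * b) * hp

theorem bern (N : ℕ) (x : ℝ) (hx : x ∈ Set.Icc (0:ℝ) 1) : |x ^ 1 * (1 - x) ^ N| ≤ 1 / ((N:ℝ) + 1) := by
  have h0 : 0 ≤ 1 - x := by linarith [hx.2]
  rw [abs_of_nonneg (mul_nonneg (pow_nonneg hx.1 _) (pow_nonneg h0 _)), le_div_iff₀ (by positivity)]
  have := pow_add_mul_le_add_pow h0 (b := x) (by linarith [hx.1]) (N + 1)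
  simp only [Nat.add_sub_cancel, sub_add_cancel, one_pow] at this
  push_cast at this
  have h1 : 0 ≤ (1 - x) ^ (N + 1) := pow_nonneg h0 _
  nlinarith

theorem result : ∃ ω₁ ω₂ : ℝ → ℝ, InOmega ω₁ ∧ InOmega ω₂ ∧
    AntitoneOn ω₁ (Set.Icc 0 1) ∧ AntitoneOn ω₂ (Set.Icc 0 1) ∧
    AntitoneOn (fun x => ω₁ x / ω₂ x) (Set.Icc 0 1) ∧
    ¬ ∃ β : ℝ → ℝ, (BoundedVariationOn β (Set.Icc 0 1) ∨ MonotoneOn β (Set.Icc 0 1)) ∧
      ∀ n : ℕ, HasRS (fun x => x ^ n) β (lam ω₁ ω₂ n) := by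
  have o1 := om_in (1 / 72) (by norm_num) (by norm_num)
  have o2 := om_in (1 / 36) (by norm_num) (by norm_num)
  refine ⟨om (1 / 72), om (1 / 36), o1, o2, om_anti _ (by norm_num), om_anti _ (by norm_num), ?_, ?_⟩
  · intro x hx y hy hxy
    simp only
    rw [div_le_div_iff₀ (o2.2.1 y hy) (o2.2.1 x hx)]
    unfold om
    have : (1 - y) ^ 3 ≤ (1 - x) ^ 3 := pow_le_pow_left₀ (by linarith [hy.2]) (by linarith) 3
    nlinarith
  · rintro ⟨β, hβ, h⟩
    have hβ' : BoundedVariationOn β (Set.Icc 0 1) := by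
      rcases hβ with hβ | hβ
      · exact hβ
      · have := hβ.locallyBoundedVariationOn 0 1 ⟨le_rfl, zero_le_one⟩ ⟨zero_le_one, le_rfl⟩
        rwa [Set.inter_self] at this
    set V := (eVariationOn β (Set.Icc 0 1)).toReal with hV
    set g := lam (om (1 / 72)) (om (1 / 36)) with hg
    have hX : ∀ N, |A g N 0| ≤ 1 * V := fun N => rs_bound hβ' (rs_A h N 0) (fun x hx => by
      rw [pow_zero, one_mul, abs_of_nonneg (pow_nonneg (by linarith [hx.2]) _)]
      exact pow_le_one₀ (by linarith [hx.2]) (by linarith [hx.1]))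
    have hY : ∀ N, |A g N 1| ≤ 1 / ((N:ℝ) + 1) * V := fun N => rs_bound hβ' (rs_A h N 1) (bern N)
    have hkey : ∀ N : ℕ, b * ((A g (N + 2) 0 : ℝ) : ℂ) + ((N:ℂ) + 2) * ((A g (N + 1) 1 : ℝ) : ℂ) =
        (108 / 107) * ((b + 8) * A (fun n => 1 / ((n:ℂ) - (-8))) (N + 2) 0 +
          (a - 10) * A (fun n => 1 / ((n:ℂ) - a)) (N + 2) 0) := by
      intro N
      have e := congrArg (fun G : ℕ → ℂ => A G (N + 2) 0) (funext lam_key)
      rw [A_lin, A_lin, A_lin, A_affine, A_mul, A_cast, A_cast] at e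
      rw [← hg] at e
      push_cast at e
      linear_combination e
    have hbd : ∃ K : ℝ, ∀ N : ℕ, ‖A (fun n => 1 / ((n:ℂ) - a)) (N + 2) 0‖ ≤ K := by
      have hne : 0 < ‖a - 10‖ := norm_pos_iff.2 (by
        intro h
        have := congrArg Complex.re h
        simp [a] at this
        norm_num at this)
      refine ⟨(‖b‖ * V + V + ‖b + 8‖ * 2) / ‖a - 10‖, fun N => ?_⟩
      rw [le_div_iff₀ hne, mul_comm, ← norm_mul]
      have e : (a - 10) * A (fun n => 1 / ((n:ℂ) - a)) (N + 2) 0 =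
          (107 / 108) * (b * ((A g (N + 2) 0 : ℝ) : ℂ) + ((N:ℂ) + 2) * ((A g (N + 1) 1 : ℝ) : ℂ))
          - (b + 8) * A (fun n => 1 / ((n:ℂ) - (-8))) (N + 2) 0 := by
        rw [hkey]; ring
      rw [e]
      refine le_trans (norm_sub_le _ _) ?_
      rw [norm_mul, norm_mul]
      have t1 := norm_add_le (b * ((A g (N + 2) 0 : ℝ) : ℂ)) (((N:ℂ) + 2) * ((A g (N + 1) 1 : ℝ) : ℂ))
      rw [norm_mul, norm_mul, Complex.norm_real, Complex.norm_real, Real.norm_eq_abs, Real.norm_eq_abs] at t1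
      have e2 : ‖((N:ℂ) + 2)‖ = (N:ℝ) + 2 := by
        have : ((N:ℂ) + 2) = (((N:ℝ) + 2 : ℝ) : ℂ) := by push_cast; ring
        rw [this, Complex.norm_real, Real.norm_of_nonneg (by positivity)]
      rw [e2] at t1
      have t2 : ‖b‖ * |A g (N + 2) 0| ≤ ‖b‖ * V :=
        mul_le_mul_of_nonneg_left (by simpa using hX (N + 2)) (norm_nonneg _)
      have t3 : ((N:ℝ) + 2) * |A g (N + 1) 1| ≤ V := by
        have := hY (N + 1)
        push_cast at this
        rw [one_div_mul_eq_div, le_div_iff₀ (by positivity)] at this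
        linarith
      have t4 : ‖b + 8‖ * ‖A (fun n => 1 / ((n:ℂ) - (-8))) (N + 2) 0‖ ≤ ‖b + 8‖ * 2 :=
        mul_le_mul_of_nonneg_left (by linarith [bound8 (N + 2)]) (norm_nonneg _)
      have t5 : ‖(107 / 108 : ℂ)‖ ≤ 1 := by simp; norm_num
      have t6 := mul_le_mul_of_nonneg_right t5
        (norm_nonneg (b * ((A g (N + 2) 0 : ℝ) : ℂ) + ((N:ℂ) + 2) * ((A g (N + 1) 1 : ℝ) : ℂ)))
      linarith
    obtain ⟨K, hK⟩ := hbd
    have hs := start_pos
    set u := Complex.normSq (A (fun n => 1 / ((n:ℂ) - a)) 26 0)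
    obtain ⟨m, hm⟩ := exists_nat_gt (27 * K ^ 2 / u)
    have h1 := growth m
    have h2 := hK (24 + m)
    rw [show 24 + m + 2 = 26 + m by ring] at h2
    rw [Complex.normSq_eq_norm_sq (A _ (26 + m) 0)] at h1
    have h3 := pow_le_pow_left₀ (norm_nonneg _) h2 2
    rw [div_lt_iff₀ hs] at hm
    nlinarith

end Pool.Agent.Results.MP_d888c7_an.NoSolution
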